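import Pool.Agent.R732.Dist.Main

/-!
# MP_591151: finite distinguishing number and uncountable Borel distinguishing number

We answer Q1 positively: there is a Borel graph `G` (locally countable, every component is a
copy of the random graph) with `D(G)` finite (at most `3`) and Borel distinguishing number equal
to the continuum.

The vertices are the codes `x` of graphs on `ℤ` that have the extension property (so are random
graphs) and trivial stabiliser under translation; `x` is joined to `x + n` if the graph `x` joins
`0` to `n`, so that the orbit of `x` carries the graph `x`. With the axiom of choice every orbit
gets an induced ray that separates all other vertices and codes the orbit, which gives a
distinguishing colouring with three colours. By Baire category every Borel colouring with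
countably many colours is, on some orbit, a generic colouring of the random graph, and a
back-and-forth argument gives a nontrivial automorphism that preserves it.
-/

set_option autoImplicit false

namespace Pool.Agent.Results.MP_591151_lc.UncountableBorelDist

open Pool.Agent.R732.Dist

/-- There is a Borel graph on a standard Borel space with finite distinguishing number whose
Borel distinguishing number is the cardinality of the continuum. -/
theorem result :
    ∃ (X : Type) (_ : MeasurableSpace X) (_ : StandardBorelSpace X) (G : SimpleGraph X),
      MeasurableSet {p : X × X | G.Adj p.1 p.2} ∧
      distNumber G < Cardinal.aleph0 ∧
      borelDistNumber G = Cardinal.continuum :=
  ⟨Y, inferInstance, inferInstance, G, measurable_adj, distNumber_lt, borelDistNumber_eq⟩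

end Pool.Agent.Results.MP_591151_lc.UncountableBorelDist
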